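import Pool.Agent.TH402.FB.Main
import Pool.Agent.TH402.FB.Syn

/-!
# Sets that meet the differences of any `K` integers contain a Bohr set up to Banach density zero
-/

set_option autoImplicit false

namespace Pool.Agent.Results.MP_83445a_co.AlmostBohrSets

open Pool.Agent.W27.FB Pool.Agent.TH402.FB

/-- the Bohr set with frequencies `Θ` and radius `ε`: the integers `n` such that for every `θ` in `Θ` the
distance of `n * θ` to the nearest integer is at most `ε` -/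
def BohrSet (Θ : Finset ℝ) (ε : ℝ) : Set ℤ := {n | ∀ θ ∈ Θ, |(n : ℝ) * θ - round ((n : ℝ) * θ)| ≤ ε}

/-- among any `K` distinct integers there are two with a difference in `D` -/
def MeetsDifferences (K : ℕ) (D : Set ℤ) : Prop :=
  ∀ s : Fin K → ℤ, Function.Injective s → ∃ i j, i ≠ j ∧ s j - s i ∈ D

/-- If among any `K` distinct integers there are two with a difference in `D`, then `D ∪ -D` contains a Bohr
set up to a set of Banach density zero. -/
theorem result (K : ℕ) (D : Set ℤ) (hD : MeetsDifferences K D) :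
    ∃ (Θ : Finset ℝ) (ρ : ℝ), 0 < ρ ∧ ∀ ε : ℝ, 0 < ε → ∃ L₀ : ℕ, ∀ L : ℕ, L₀ ≤ L → ∀ u : ℤ,
      ({n : ℤ | u < n ∧ n ≤ u + L ∧ n ∈ BohrSet Θ ρ ∧ n ∉ D ∧ -n ∉ D}.ncard : ℝ) ≤ ε * L := by
  classical
  obtain ⟨E, hE⟩ : ∃ E : Set ℤ, E = {z : ℤ | z ≠ 0 ∧ z ∉ D ∧ -z ∉ D} := ⟨_, rfl⟩
  have h1 : ∃ (T : Finset Circle) (ρ : ℝ), 0 < ρ ∧ Null (E ∩ Bo T ρ) := by
    by_contra hne
    push Not at hne
    obtain ⟨l, hl, hgood⟩ := s_main E hne K
    have hs := good_sums l hgood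
    have key : ∀ i j : Fin K, (i : ℕ) < j → (l.take j).sum - (l.take i).sum ∈ E := fun i j hij =>
      hs i j hij (by rw [hl]; exact j.2.le)
    obtain ⟨i, j, hij, hd⟩ := hD (fun i : Fin K => (l.take i).sum) (by
      intro i j hij
      by_contra hne
      rcases lt_or_gt_of_ne (fun h => hne (Fin.ext h) : (i : ℕ) ≠ j) with h | h
      · have h2 := key i j h
        rw [hE] at h2
        exact h2.1 (by simp only at hij; rw [hij, sub_self])
      · have h2 := key j i h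
        rw [hE] at h2
        exact h2.1 (by simp only at hij; rw [hij, sub_self]))
    rcases lt_or_gt_of_ne (fun h => hij (Fin.ext h) : (i : ℕ) ≠ j) with h | h
    · have h2 := key i j h
      rw [hE] at h2
      exact h2.2.1 hd
    · have h2 := key j i h
      rw [hE] at h2
      exact h2.2.2 (by rw [neg_sub]; exact hd)
  obtain ⟨T, ρ, hρ, hnull⟩ := h1
  obtain ⟨Θ, ρ', hρ', hconv⟩ := conv T ρ hρ
  refine ⟨Θ, ρ' / 2, by positivity, fun ε hε => ?_⟩
  obtain ⟨L₀, hL₀⟩ := hnull (ε / 3) (by positivity)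
  obtain ⟨N, hN⟩ := exists_nat_gt (3 / ε)
  refine ⟨max L₀ (N + 1), fun L hL u => ?_⟩
  have hLL : L₀ ≤ L := (le_max_left _ _).trans hL
  have hLN : N + 1 ≤ L := (le_max_right _ _).trans hL
  have hLN' : (N : ℝ) + 1 ≤ L := by exact_mod_cast hLN
  have h3 : 3 < ε * L := by
    rw [div_lt_iff₀ hε] at hN
    nlinarith
  have hB : ∀ n : ℤ, n ∈ BohrSet Θ (ρ' / 2) → n ∈ Bo T ρ := by
    intro n hn z hz
    rcases Int.eq_nat_or_neg n with ⟨k, rfl | rfl⟩
    · exact hconv k (fun θ hθ => lt_of_le_of_lt (by simpa using hn θ hθ) (by linarith)) z hz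
    · have h5 := hconv k (fun θ hθ => ?_) z hz
      · have e : ‖((z ^ (-(k : ℤ)) : Circle) : ℂ) - 1‖ = ‖((z ^ (k : ℤ) : Circle) : ℂ) - 1‖ := by
          have h6 : ((z ^ (-(k : ℤ)) : Circle) : ℂ) - 1 =
              -((z ^ (-(k : ℤ)) : Circle) : ℂ) * (((z ^ (k : ℤ) : Circle) : ℂ) - 1) := by
            have h7 : ((z ^ (-(k : ℤ)) : Circle) : ℂ) * ((z ^ (k : ℤ) : Circle) : ℂ) = 1 := by
              rw [← Circle.coe_mul, ← zpow_add, neg_add_cancel, zpow_zero, Circle.coe_one]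
            linear_combination h7
          rw [h6, norm_mul, norm_neg, Circle.norm_coe, one_mul]
        rw [e]
        exact h5
      · have h6 := hn θ hθ
        refine lt_of_le_of_lt ?_ (by linarith : ρ' / 2 < ρ')
        refine le_trans (round_le _ (-round (((-(k : ℤ) : ℤ) : ℝ) * θ))) ?_
        refine le_trans (le_of_eq ?_) h6
        rw [← abs_neg]
        congr 1
        push_cast
        ring
  have h4 := hL₀ L hLL (u + 1)
  have hfin : {n : ℕ | n < L ∧ u + 1 + (n : ℤ) ∈ E ∩ Bo T ρ}.Finite :=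
    (Set.finite_lt_nat L).subset fun n hn => hn.1
  have h5 : {n : ℤ | u < n ∧ n ≤ u + L ∧ n ∈ BohrSet Θ (ρ' / 2) ∧ n ∉ D ∧ -n ∉ D} ⊆
      insert 0 ((fun n : ℕ => u + 1 + (n : ℤ)) '' {n : ℕ | n < L ∧ u + 1 + (n : ℤ) ∈ E ∩ Bo T ρ}) := by
    rintro n ⟨g1, g2, g3, g4, g5⟩
    by_cases hn : n = 0
    · exact Or.inl hn
    right
    have e : ((n - u - 1).toNat : ℤ) = n - u - 1 := Int.toNat_of_nonneg (by linarith)
    have e' : u + 1 + ((n - u - 1).toNat : ℤ) = n := by rw [e]; ring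
    refine ⟨(n - u - 1).toNat, ⟨?_, ?_⟩, e'⟩
    · have : ((n - u - 1).toNat : ℤ) < L := by rw [e]; linarith
      exact_mod_cast this
    · rw [e', hE]
      exact ⟨⟨hn, g4, g5⟩, hB n g3⟩
  have h6 := Set.ncard_le_ncard h5 ((hfin.image _).insert 0)
  have h7 := Set.ncard_insert_le (0 : ℤ)
    ((fun n : ℕ => u + 1 + (n : ℤ)) '' {n : ℕ | n < L ∧ u + 1 + (n : ℤ) ∈ E ∩ Bo T ρ})
  have h8 := Set.ncard_image_le (f := fun n : ℕ => u + 1 + (n : ℤ)) hfin
  have h9 : ({n : ℤ | u < n ∧ n ≤ u + L ∧ n ∈ BohrSet Θ (ρ' / 2) ∧ n ∉ D ∧ -n ∉ D}.ncard : ℝ) ≤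
      ({n : ℕ | n < L ∧ u + 1 + (n : ℤ) ∈ E ∩ Bo T ρ}.ncard : ℝ) + 1 := by
    exact_mod_cast h6.trans (h7.trans (Nat.add_le_add_right h8 1))
  linarith

end Pool.Agent.Results.MP_83445a_co.AlmostBohrSets
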